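import Pool.Agent.H104.MZ.Stm

set_option autoImplicit false

open Polynomial Finset

namespace Pool.Agent.Q220.MZ

open Pool.Agent.H104.MZ

theorem t_ANN (h1 : S_GCD) (h2 : S_POW) (h3 : S_EXPD) (h4 : S_NRM) (h5 : S_LOC) : S_ANN := by
  intro L0 k hL0 hk
  obtain ⟨Q, S, e, hQ, U, hU⟩ := h1 L0 hL0
  obtain ⟨A, hA⟩ := h2 S Q e U (fun σ => expand ℂ (σ + 1) (L0.map (Int.castRingHom ℂ))) hQ hU
  refine ⟨Q, e * S, A, hQ, ?_⟩
  intro M G n a b η hG hη hn hclose j haj hjb
  rw [mul_assoc]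
  apply h3
  refine hA M n a b ?_ j haj hjb
  intro σ _ j' haj' hj'b
  set K : ℤ[X] := (expand ℤ (σ + 1) L0) ^ M with hK
  have hF : (expand ℂ (σ + 1) (L0.map (Int.castRingHom ℂ))) ^ M =
      K.map (Int.castRingHom ℂ) := by
    rw [hK, Polynomial.map_pow, map_expand]
  have hdeg : (K.map (Int.castRingHom ℂ)).natDegree = K.natDegree :=
    natDegree_map_eq_of_injective (RingHom.injective_int (Int.castRingHom ℂ)) K
  obtain ⟨hn1, -, hn3⟩ := h4 L0 (σ + 1) M (by omega)
  have hnrm : (nrm K : ℝ) * η < 1 := by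
    refine lt_of_le_of_lt (mul_le_mul_of_nonneg_right ?_ hη) hn
    exact_mod_cast hn1
  have hj'' : j' + K.natDegree < b := by
    have h6 := hj'b
    rw [hF, hdeg] at h6
    exact h6
  have key := h5 K (k * M) G n a b η (hn3 k hk) hG hη hnrm hclose j' haj' hj''
  rw [hF]
  unfold act
  rw [Polynomial.sum_over_range _ (fun i => by simp), hdeg]
  have : ∀ i, (K.map (Int.castRingHom ℂ)).coeff i * (n (j' + i) : ℂ) =
      ((K.coeff i * n (j' + i) : ℤ) : ℂ) := by
    intro i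
    rw [coeff_map]
    push_cast
    rfl
  rw [Finset.sum_congr rfl fun i _ => this i, ← Int.cast_sum, key, Int.cast_zero]

end Pool.Agent.Q220.MZ
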