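import Pool.Agent.H104.MZ.Stm

set_option autoImplicit false

open Polynomial Finset

namespace Pool.Agent.Q220.MZ

open Pool.Agent.H104.MZ

theorem t_CNT : S_CNT := by
  intro N m Λ hN hm hΛ
  classical
  have hN' : (1 : ℝ) ≤ N := by exact_mod_cast hN
  have hm' : (1 : ℝ) ≤ m := by exact_mod_cast hm
  have hΛ' : (1 : ℝ) ≤ Λ := by exact_mod_cast hΛ
  let x : Fin m → ℝ := fun k => Λ / (8 * m * (N : ℝ) ^ ((k : ℕ) + 1))
  have hden : ∀ k : Fin m, (1 : ℝ) < 8 * m * (N : ℝ) ^ ((k : ℕ) + 1) := by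
    intro k
    have h1 : (1 : ℝ) ≤ (N : ℝ) ^ ((k : ℕ) + 1) := one_le_pow₀ hN'
    nlinarith
  have hx0 : ∀ k, 0 ≤ x k := fun k => div_nonneg (by linarith) (by linarith [hden k])
  have hx1 : ∀ k, x k < Λ := fun k => by
    have h1 := hden k
    simp only [x]
    rw [div_lt_iff₀ (by linarith)]
    nlinarith
  have hsub : Fintype.piFinset (fun k : Fin m => range (⌊x k⌋₊ + 1)) ⊆
      (Fintype.piFinset (fun _ : Fin m => range Λ)).filter
        (fun t => ∀ k : Fin m, (t k : ℝ) ≤ Λ / (8 * m * (N : ℝ) ^ ((k : ℕ) + 1))) := by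
    intro t ht
    rw [Fintype.mem_piFinset] at ht
    rw [Finset.mem_filter, Fintype.mem_piFinset]
    have h1 : ∀ k, t k ≤ ⌊x k⌋₊ := fun k => Nat.lt_succ_iff.mp (Finset.mem_range.mp (ht k))
    refine ⟨fun k => ?_, fun k => ?_⟩
    · rw [Finset.mem_range]
      exact (h1 k).trans_lt ((Nat.floor_lt (hx0 k)).mpr (hx1 k))
    · calc (t k : ℝ) ≤ (⌊x k⌋₊ : ℝ) := by exact_mod_cast h1 k
        _ ≤ x k := Nat.floor_le (hx0 k)
  have hcard := Finset.card_le_card hsub
  rw [Fintype.card_piFinset] at hcard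
  have h2 : (∏ k : Fin m, x k) ≤ ((∏ k : Fin m, (range (⌊x k⌋₊ + 1)).card : ℕ) : ℝ) := by
    rw [Nat.cast_prod]
    refine Finset.prod_le_prod (fun k _ => hx0 k) fun k _ => ?_
    rw [Finset.card_range]
    push_cast
    exact (Nat.lt_floor_add_one (x k)).le
  have h3 : (Λ : ℝ) ^ m * ∏ k : Fin m, (1 / (8 * m * (N : ℝ) ^ ((k : ℕ) + 1)) : ℝ) =
      ∏ k : Fin m, x k := by
    have : (Λ : ℝ) ^ m = ∏ _k : Fin m, (Λ : ℝ) := by simp
    rw [this, ← Finset.prod_mul_distrib]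
    refine Finset.prod_congr rfl fun k _ => ?_
    simp only [x]
    rw [mul_one_div]
  rw [h3]
  refine h2.trans ?_
  exact_mod_cast hcard

theorem t_VOL : S_VOL := by
  intro N m x hN hm hx
  have hN' : (0 : ℝ) < N := by exact_mod_cast hN
  have hm' : (0 : ℝ) < m := by exact_mod_cast hm
  have hfac : ∀ k : Fin m, (1 / (8 * m * (N : ℝ) ^ ((k : ℕ) + 1)) : ℝ) =
      Real.exp (-(Real.log (8 * m) + ((k : ℕ) + 1) * Real.log N)) := by
    intro k
    rw [Real.exp_neg, Real.exp_add, Real.exp_log (by positivity)]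
    have h1 : Real.exp (((k : ℕ) + 1) * Real.log N) = (N : ℝ) ^ ((k : ℕ) + 1) := by
      have h2 : (((k : ℕ) : ℝ) + 1) * Real.log N = Real.log ((N : ℝ) ^ ((k : ℕ) + 1)) := by
        rw [Real.log_pow]
        push_cast
        ring
      rw [h2, Real.exp_log (by positivity)]
    rw [h1, one_div]
  have hsum : ∑ k : Fin m, (((k : ℕ) : ℝ) + 1) = m * (m + 1) / 2 := by
    rw [Fin.sum_univ_eq_sum_range (fun k : ℕ => (k : ℝ) + 1) m]
    clear hfac hx hm hm'
    induction m with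
    | zero => simp
    | succ m ih =>
      rw [Finset.sum_range_succ, ih]
      push_cast
      ring
  have hprod : (1 / 2 : ℝ) * ∏ k : Fin m, (1 / (8 * m * (N : ℝ) ^ ((k : ℕ) + 1)) : ℝ) =
      Real.exp (-(Real.log 2 + m * Real.log (8 * m) + m * (m + 1) / 2 * Real.log N)) := by
    rw [Finset.prod_congr rfl fun k _ => hfac k, ← Real.exp_sum]
    have h2 : (1 / 2 : ℝ) = Real.exp (-Real.log 2) := by
      rw [Real.exp_neg, Real.exp_log (by norm_num)]
      norm_num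
    rw [h2, ← Real.exp_add]
    congr 1
    rw [Finset.sum_neg_distrib, Finset.sum_add_distrib, ← Finset.sum_mul, hsum]
    simp
    ring
  rw [hprod]
  exact Real.exp_le_exp.mpr (by linarith)

end Pool.Agent.Q220.MZ
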